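import Mathlib

/-!
Lemma Z: unipotent operators all of whose long left-normed commutators are trivial have a common
fixed vector, and the products of `dim E` factors `s - 1` vanish.
-/

set_option autoImplicit false

namespace Pool.Agent.H85.MA

open Module

/-- `LN S k g`: `g` is a left-normed commutator `[s₁,[s₂,…,[s_k,s_{k+1}]]]` of elements of `S`. -/
def LN {G : Type*} [Group G] (S : Set G) : ℕ → G → Prop
  | 0, g => g ∈ S
  | k + 1, g => ∃ s ∈ S, ∃ v, LN S k v ∧ g = s * v * s⁻¹ * v⁻¹

/-- The restriction of a representation to an invariant subspace. -/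
def rres {K : Type*} [Field K] {G : Type*} [Group G] {E : Type*} [AddCommGroup E] [Module K E]
    (ρ : G →* End K E) (W : Submodule K E) (hW : ∀ g, ∀ w ∈ W, ρ g w ∈ W) : G →* End K W where
  toFun g := (ρ g).restrict (hW g)
  map_one' := by
    ext x
    simp
  map_mul' a b := by
    ext x
    simp

theorem rres_apply {K : Type*} [Field K] {G : Type*} [Group G] {E : Type*} [AddCommGroup E]
    [Module K E] (ρ : G →* End K E) (W : Submodule K E) (hW : ∀ g, ∀ w ∈ W, ρ g w ∈ W) (g : G)
    (x : W) : ((rres ρ W hW g x : W) : E) = ρ g x := rfl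

theorem rres_pow {K : Type*} [Field K] {G : Type*} [Group G] {E : Type*} [AddCommGroup E]
    [Module K E] (ρ : G →* End K E) (W : Submodule K E) (hW : ∀ g, ∀ w ∈ W, ρ g w ∈ W) (g : G)
    (m : ℕ) (x : W) : ((((rres ρ W hW g - 1) ^ m) x : W) : E) = ((ρ g - 1) ^ m) x := by
  induction m generalizing x with
  | zero => simp
  | succ m ih =>
    rw [pow_succ, pow_succ, Module.End.mul_apply, Module.End.mul_apply, ih]
    rfl

theorem rres_nil {K : Type*} [Field K] {G : Type*} [Group G] {E : Type*} [AddCommGroup E]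
    [Module K E] (ρ : G →* End K E) (W : Submodule K E) (hW : ∀ g, ∀ w ∈ W, ρ g w ∈ W) (g : G)
    (h : IsNilpotent (ρ g - 1)) : IsNilpotent (rres ρ W hW g - 1) := by
  obtain ⟨m, hm⟩ := h
  refine ⟨m, ?_⟩
  ext x
  rw [rres_pow, hm]
  rfl

/-- The representation on the quotient by an invariant subspace. -/
def rquo {K : Type*} [Field K] {G : Type*} [Group G] {E : Type*} [AddCommGroup E] [Module K E]
    (ρ : G →* End K E) (W : Submodule K E) (hW : ∀ g, ∀ w ∈ W, ρ g w ∈ W) :
    G →* End K (E ⧸ W) where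
  toFun g := W.mapQ W (ρ g) (hW g)
  map_one' := by
    ext x
    simp
  map_mul' a b := by
    ext x
    simp

theorem rquo_apply {K : Type*} [Field K] {G : Type*} [Group G] {E : Type*} [AddCommGroup E]
    [Module K E] (ρ : G →* End K E) (W : Submodule K E) (hW : ∀ g, ∀ w ∈ W, ρ g w ∈ W) (g : G)
    (x : E) : rquo ρ W hW g (W.mkQ x) = W.mkQ (ρ g x) := rfl

theorem rquo_pow {K : Type*} [Field K] {G : Type*} [Group G] {E : Type*} [AddCommGroup E]
    [Module K E] (ρ : G →* End K E) (W : Submodule K E) (hW : ∀ g, ∀ w ∈ W, ρ g w ∈ W) (g : G)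
    (m : ℕ) (x : E) : ((rquo ρ W hW g - 1) ^ m) (W.mkQ x) = W.mkQ (((ρ g - 1) ^ m) x) := by
  induction m generalizing x with
  | zero => simp
  | succ m ih =>
    rw [pow_succ, pow_succ, Module.End.mul_apply, Module.End.mul_apply, ← ih]
    rfl

theorem rquo_nil {K : Type*} [Field K] {G : Type*} [Group G] {E : Type*} [AddCommGroup E]
    [Module K E] (ρ : G →* End K E) (W : Submodule K E) (hW : ∀ g, ∀ w ∈ W, ρ g w ∈ W) (g : G)
    (h : IsNilpotent (ρ g - 1)) : IsNilpotent (rquo ρ W hW g - 1) := by
  obtain ⟨m, hm⟩ := h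
  refine ⟨m, ?_⟩
  ext x
  have := rquo_pow ρ W hW g m x
  rw [hm] at this
  simpa using this

/-- A product of two commuting unipotents is unipotent. -/
theorem uni_mul {R : Type*} [Ring R] {a b : R} (hab : Commute a b) (ha : IsNilpotent (a - 1))
    (hb : IsNilpotent (b - 1)) : IsNilpotent (a * b - 1) := by
  have h1 : a * b - 1 = (a - 1) * b + (b - 1) := by noncomm_ring
  have h2 : Commute (a - 1) b := hab.sub_left (Commute.one_left b)
  have h3 : IsNilpotent ((a - 1) * b) := h2.isNilpotent_mul_right ha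
  rw [h1]
  refine Commute.isNilpotent_add ?_ h3 hb
  have h4 : Commute ((a - 1) * b) b := h2.mul_left (Commute.refl b)
  exact h4.sub_right (Commute.one_right _)

/-- The inverse of a unipotent is unipotent. -/
theorem uni_inv {R : Type*} [Ring R] {a b : R} (h1 : a * b = 1) (h2 : b * a = 1)
    (ha : IsNilpotent (a - 1)) : IsNilpotent (b - 1) := by
  have hab : Commute a b := h1.trans h2.symm
  have h3 : b - 1 = (a - 1) * (-b) := by
    have : (a - 1) * (-b) = -(a * b) + b := by noncomm_ring
    rw [this, h1]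
    noncomm_ring
  rw [h3]
  refine Commute.isNilpotent_mul_right ?_ ha
  exact (hab.sub_left (Commute.one_left b)).neg_right

/-- A conjugate of a unipotent is unipotent. -/
theorem uni_conj {R : Type*} [Ring R] {a v w : R} (h1 : w * v = 1)
    (ha : IsNilpotent (a - 1)) (h2 : v * w = 1) : IsNilpotent (v * a * w - 1) := by
  obtain ⟨m, hm⟩ := ha
  refine ⟨m, ?_⟩
  have h3 : v * a * w - 1 = v * (a - 1) * w := by
    rw [mul_sub, sub_mul, mul_one, h2]
  have h4 : ∀ k : ℕ, (v * (a - 1) * w) ^ k = v * (a - 1) ^ k * w := by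
    intro k
    induction k with
    | zero => simp [h2]
    | succ k ih =>
      rw [pow_succ, ih, pow_succ]
      calc v * (a - 1) ^ k * w * (v * (a - 1) * w)
          = v * (a - 1) ^ k * (w * v) * (a - 1) * w := by simp only [mul_assoc]
        _ = v * ((a - 1) ^ k * (a - 1)) * w := by rw [h1]; simp only [mul_assoc, mul_one]
  rw [h3, h4, hm, mul_zero, zero_mul]

/-- A representation of a group generated by unipotent elements all of whose left-normed
commutators of some length act trivially has a fixed vector. -/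
theorem lemZ_fix {K : Type*} [Field K] {G : Type*} [Group G] (S : Set G)
    (hS : Subgroup.closure S = ⊤) :
    ∀ (n : ℕ) (E : Type*) [AddCommGroup E] [Module K E] [FiniteDimensional K E]
      (ρ : G →* End K E), finrank K E = n → Nontrivial E →
      (∀ s ∈ S, IsNilpotent (ρ s - 1)) → (∃ L, ∀ g, LN S L g → ρ g = 1) →
      ∃ v : E, v ≠ 0 ∧ ∀ g, ρ g v = v := by
  classical
  intro n
  induction n using Nat.strong_induction_on with
  | _ n ih =>
  intro E _ _ _ ρ hn hE hnil hL
  -- it is enough to be fixed by `S`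
  have hfix : ∀ v : E, (∀ s ∈ S, ρ s v = v) → ∀ g, ρ g v = v := by
    intro v hv g
    have hg : g ∈ Subgroup.closure S := by rw [hS]; trivial
    induction hg using Subgroup.closure_induction with
    | mem x hx => exact hv x hx
    | one => simp
    | mul x y _ _ hx hy => rw [map_mul, Module.End.mul_apply, hy, hx]
    | inv x _ hx =>
      have h1 : ρ x⁻¹ (ρ x v) = v := by
        rw [← Module.End.mul_apply, ← map_mul, inv_mul_cancel, map_one]; rfl
      rw [hx] at h1
      exact h1
  -- the minimal length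
  obtain ⟨L, hLm, hmin⟩ : ∃ L, (∀ g, LN S L g → ρ g = 1) ∧
      ∀ L' < L, ¬ ∀ g, LN S L' g → ρ g = 1 :=
    ⟨Nat.find hL, Nat.find_spec hL, fun L' h => Nat.find_min hL h⟩
  rcases L with _ | m
  · obtain ⟨v, hv⟩ := exists_ne (0 : E)
    refine ⟨v, hv, hfix v fun s hs => ?_⟩
    rw [hLm s hs]
    rfl
  · obtain ⟨u, hu, hu1⟩ : ∃ u, LN S m u ∧ ρ u ≠ 1 := by
      by_contra hcon
      push Not at hcon
      exact hmin m (Nat.lt_succ_self m) hcon
    have hcS : ∀ s ∈ S, ρ s * ρ u = ρ u * ρ s := by
      intro s hs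
      have h1 : ρ (s * u * s⁻¹ * u⁻¹) = 1 := hLm _ ⟨s, hs, u, hu, rfl⟩
      have h2 : s * u = (s * u * s⁻¹ * u⁻¹) * (u * s) := by group
      rw [← map_mul, h2, map_mul, h1, one_mul, map_mul]
    have hc : ∀ g, ρ g * ρ u = ρ u * ρ g := by
      intro g
      have hg : g ∈ Subgroup.closure S := by rw [hS]; trivial
      induction hg using Subgroup.closure_induction with
      | mem x hx => exact hcS x hx
      | one => simp
      | mul x y _ _ hx hy => rw [map_mul, mul_assoc, hy, ← mul_assoc, hx, mul_assoc]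
      | inv x _ hx =>
        have h1 : ρ x⁻¹ * ρ x = 1 := by rw [← map_mul, inv_mul_cancel, map_one]
        have h2 : ρ x * ρ x⁻¹ = 1 := by rw [← map_mul, mul_inv_cancel, map_one]
        calc ρ x⁻¹ * ρ u = ρ x⁻¹ * ρ u * (ρ x * ρ x⁻¹) := by rw [h2, mul_one]
          _ = ρ x⁻¹ * (ρ u * ρ x) * ρ x⁻¹ := by simp only [mul_assoc]
          _ = ρ x⁻¹ * (ρ x * ρ u) * ρ x⁻¹ := by rw [hx]
          _ = (ρ x⁻¹ * ρ x) * ρ u * ρ x⁻¹ := by simp only [mul_assoc]
          _ = ρ u * ρ x⁻¹ := by rw [h1, one_mul]
    -- `u` is unipotent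
    have hun : IsNilpotent (ρ u - 1) := by
      rcases m with _ | k
      · exact hnil u hu
      · obtain ⟨s, hs, v, hv, huv⟩ := hu
        have h1 : u⁻¹ = (v * s * v⁻¹) * s⁻¹ := by
          rw [huv]; group
        have hss : ρ s * ρ s⁻¹ = 1 := by rw [← map_mul, mul_inv_cancel, map_one]
        have hss' : ρ s⁻¹ * ρ s = 1 := by rw [← map_mul, inv_mul_cancel, map_one]
        have hvv : ρ v * ρ v⁻¹ = 1 := by rw [← map_mul, mul_inv_cancel, map_one]
        have hvv' : ρ v⁻¹ * ρ v = 1 := by rw [← map_mul, inv_mul_cancel, map_one]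
        have huu : ρ u * ρ u⁻¹ = 1 := by rw [← map_mul, mul_inv_cancel, map_one]
        have huu' : ρ u⁻¹ * ρ u = 1 := by rw [← map_mul, inv_mul_cancel, map_one]
        have h2 : IsNilpotent (ρ s⁻¹ - 1) := uni_inv hss hss' (hnil s hs)
        have h3 : IsNilpotent (ρ (v * s * v⁻¹) - 1) := by
          rw [map_mul, map_mul]
          exact uni_conj hvv' (hnil s hs) hvv
        have h4 : Commute (ρ (v * s * v⁻¹)) (ρ s⁻¹) := by
          have h5 : v * s * v⁻¹ = u⁻¹ * s := by rw [h1]; group
          rw [h5]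
          have h6 : Commute (ρ s⁻¹) (ρ u⁻¹) := by
            have h7 : ρ s⁻¹ * ρ u = ρ u * ρ s⁻¹ := hc s⁻¹
            have h8 : ρ s⁻¹ * ρ u⁻¹ = ρ u⁻¹ * ρ s⁻¹ := by
              calc ρ s⁻¹ * ρ u⁻¹ = (ρ u⁻¹ * ρ u) * ρ s⁻¹ * ρ u⁻¹ := by rw [huu', one_mul]
                _ = ρ u⁻¹ * (ρ u * ρ s⁻¹) * ρ u⁻¹ := by simp only [mul_assoc]
                _ = ρ u⁻¹ * (ρ s⁻¹ * ρ u) * ρ u⁻¹ := by rw [h7]
                _ = ρ u⁻¹ * ρ s⁻¹ * (ρ u * ρ u⁻¹) := by simp only [mul_assoc]
                _ = ρ u⁻¹ * ρ s⁻¹ := by rw [huu, mul_one]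
            exact h8
          rw [map_mul]
          exact (h6.symm).mul_left (hss.trans hss'.symm)
        have h5 : IsNilpotent (ρ u⁻¹ - 1) := by
          rw [h1, map_mul]
          exact uni_mul h4 h3 h2
        exact uni_inv huu' huu h5
    -- the kernel of `u - 1`
    let W : Submodule K E := LinearMap.ker (ρ u - 1)
    have hWi : ∀ g, ∀ w ∈ W, ρ g w ∈ W := by
      intro g w hw
      have h1 : (ρ u - 1) w = 0 := hw
      have h2 : ρ u w = w := by
        have h3 : ρ u w - w = 0 := h1
        exact sub_eq_zero.1 h3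
      show (ρ u - 1) (ρ g w) = 0
      have h3 : ρ u (ρ g w) = ρ g w := by
        have h4 := congrArg (fun T : End K E => T w) (hc g)
        simp only [Module.End.mul_apply] at h4
        rw [← h4, h2]
      show ρ u (ρ g w) - ρ g w = 0
      rw [h3, sub_self]
    have hWne : W ≠ ⊤ := by
      intro h
      apply hu1
      have h2 := LinearMap.ker_eq_top.1 h
      exact sub_eq_zero.1 h2
    have hWbot : W ≠ ⊥ := by
      intro h
      obtain ⟨N, hN⟩ := hun
      have hinj : Function.Injective ⇑(ρ u - 1) := LinearMap.ker_eq_bot.1 h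
      have hinj' : ∀ k : ℕ, Function.Injective ⇑((ρ u - 1) ^ k) := by
        intro k
        induction k with
        | zero => intro a b hab; simpa using hab
        | succ k ihk =>
          rw [pow_succ]
          intro a b hab
          rw [Module.End.mul_apply, Module.End.mul_apply] at hab
          exact hinj (ihk hab)
      obtain ⟨v, hv⟩ := exists_ne (0 : E)
      apply hv
      apply hinj' N
      rw [hN]
      rfl
    have hlt : finrank K W < n := by
      rw [← hn]
      exact Submodule.finrank_lt hWne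
    have hWn : Nontrivial W := (Submodule.nontrivial_iff_ne_bot).2 hWbot
    obtain ⟨w, hw0, hw⟩ := ih (finrank K W) hlt W (rres ρ W hWi) rfl hWn
      (fun s hs => rres_nil ρ W hWi s (hnil s hs))
      ⟨m + 1, fun g hg => by
        ext x
        rw [rres_apply, hLm g hg]
        rfl⟩
    refine ⟨w, fun h => hw0 (Subtype.ext h), fun g => ?_⟩
    have := congrArg Subtype.val (hw g)
    rw [rres_apply] at this
    exact this

/-- Lemma Z: products of `dim E` factors `s - 1` vanish. -/
theorem lemZ {K : Type*} [Field K] {G : Type*} [Group G] (S : Set G)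
    (hS : Subgroup.closure S = ⊤) :
    ∀ (n : ℕ) (E : Type*) [AddCommGroup E] [Module K E] [FiniteDimensional K E]
      (ρ : G →* End K E), finrank K E ≤ n →
      (∀ s ∈ S, IsNilpotent (ρ s - 1)) → (∃ L, ∀ g, LN S L g → ρ g = 1) →
      ∀ l : List G, (∀ s ∈ l, s ∈ S) → l.length = n → (l.map (fun s => ρ s - 1)).prod = 0 := by
  intro n
  induction n with
  | zero =>
    intro E _ _ _ ρ hn _ _ l _ _
    have h1 : Subsingleton E := finrank_zero_iff.1 (Nat.le_zero.1 hn)
    ext x
    exact Subsingleton.elim _ _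
  | succ n ih =>
    intro E _ _ _ ρ hn hnil hL l hl hlen
    rcases subsingleton_or_nontrivial E with h1 | h1
    · ext x
      exact Subsingleton.elim _ _
    obtain ⟨v, hv0, hv⟩ := lemZ_fix S hS (finrank K E) E ρ rfl h1 hnil hL
    let F : Submodule K E :=
      { carrier := {x | ∀ g, ρ g x = x}
        add_mem' := fun {a b} ha hb g => by rw [map_add, ha g, hb g]
        zero_mem' := fun g => map_zero _
        smul_mem' := fun c a ha g => by rw [map_smul, ha g] }
    have hF : ∀ x ∈ F, ∀ g, ρ g x = x := fun x hx => hx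
    have hFi : ∀ g, ∀ w ∈ F, ρ g w ∈ F := by
      intro g w hw
      rw [hF w hw g]
      exact hw
    have hF0 : 0 < finrank K F := by
      have : Nontrivial F := ⟨⟨⟨v, hv⟩, 0, fun h => hv0 (congrArg Subtype.val h)⟩⟩
      exact finrank_pos
    have hq : finrank K (E ⧸ F) ≤ n := by
      have := Submodule.finrank_quotient_add_finrank F
      omega
    obtain ⟨s, l', rfl⟩ : ∃ s l', l = s :: l' := by
      cases l with
      | nil => simp at hlen
      | cons s l' => exact ⟨s, l', rfl⟩
    have hl' : (l'.map (fun s => rquo ρ F hFi s - 1)).prod = 0 := by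
      apply ih (E ⧸ F) (rquo ρ F hFi) hq (fun s hs => rquo_nil ρ F hFi s (hnil s hs))
      · obtain ⟨L, hL⟩ := hL
        refine ⟨L, fun g hg => ?_⟩
        ext x
        show rquo ρ F hFi g (F.mkQ x) = F.mkQ x
        rw [rquo_apply, hL g hg]
        rfl
      · exact fun t ht => hl t (List.mem_cons_of_mem _ ht)
      · simpa using hlen
    have key : ∀ (l : List G) (x : E), F.mkQ ((l.map (fun s => ρ s - 1)).prod x) =
        (l.map (fun s => rquo ρ F hFi s - 1)).prod (F.mkQ x) := by
      intro l
      induction l with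
      | nil => intro x; simp
      | cons a l ihl =>
        intro x
        rw [List.map_cons, List.prod_cons, List.map_cons, List.prod_cons, Module.End.mul_apply,
          Module.End.mul_apply, ← ihl]
        rfl
    rw [List.map_cons, List.prod_cons]
    ext x
    rw [Module.End.mul_apply]
    have h2 : F.mkQ ((l'.map (fun s => ρ s - 1)).prod x) = 0 := by
      rw [key, hl']
      rfl
    have h3 : (l'.map (fun s => ρ s - 1)).prod x ∈ F := by
      rw [← Submodule.ker_mkQ F]
      exact h2
    show ρ s _ - _ = 0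
    rw [hF _ h3 s]
    exact sub_self _

theorem LN_val {Γ : Type*} [Group Γ] (S : Set Γ) (k : ℕ) (g : Subgroup.closure S)
    (h : LN (Subtype.val ⁻¹' S : Set (Subgroup.closure S)) k g) : LN S k (g : Γ) := by
  induction k generalizing g with
  | zero => exact h
  | succ k ih =>
    obtain ⟨s, hs, v, hv, rfl⟩ := h
    exact ⟨s, hs, v, ih v hv, by simp⟩

/-- Lemma Z for continuous linear maps, without the generation hypothesis. -/
theorem lemZ_cont {Γ : Type*} [Group Γ] {E : Type*} [NormedAddCommGroup E] [NormedSpace ℝ E]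
    [FiniteDimensional ℝ E] (π : Γ →* (E →L[ℝ] E)) (S : Set Γ)
    (hnil : ∀ s ∈ S, IsNilpotent (π s - 1)) (hL : ∃ L, ∀ g, LN S L g → π g = 1)
    (l : List Γ) (hl : ∀ s ∈ l, s ∈ S) (hlen : l.length = finrank ℝ E) :
    (l.map (fun s => π s - 1)).prod = 0 := by
  classical
  let f : (E →L[ℝ] E) →+* End ℝ E := ContinuousLinearMap.toLinearMapRingHom
  have hf : Function.Injective f := ContinuousLinearMap.coe_injective
  let ρ : Subgroup.closure S →* End ℝ E :=
    (f : (E →L[ℝ] E) →* End ℝ E).comp (π.comp (Subgroup.closure S).subtype)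
  have hρ : ∀ g, ρ g = f (π (g : Γ)) := fun _ => rfl
  have hcl : Subgroup.closure (Subtype.val ⁻¹' S : Set (Subgroup.closure S)) = ⊤ :=
    Subgroup.closure_closure_coe_preimage
  obtain ⟨L, hL⟩ := hL
  have hl2 : ∀ s ∈ l, s ∈ Subgroup.closure S := fun s hs => Subgroup.subset_closure (hl s hs)
  let l' : List (Subgroup.closure S) := l.attachWith _ hl2
  have hl' : l'.map Subtype.val = l := by simp [l']
  have key := lemZ (Subtype.val ⁻¹' S : Set (Subgroup.closure S)) hcl (finrank ℝ E) E ρ le_rfl
    (fun s hs => by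
      rw [hρ, ← map_one f, ← map_sub]
      exact (hnil s hs).map f)
    ⟨L, fun g hg => by rw [hρ, hL _ (LN_val S L g hg), map_one]⟩ l'
    (fun s hs => by
      have : (s : Γ) ∈ l := by
        rw [← hl']
        exact List.mem_map_of_mem hs
      exact hl _ this)
    (by rw [← hlen, ← hl', List.length_map])
  apply hf
  rw [map_zero, map_list_prod, List.map_map, ← key, ← hl', List.map_map]
  congr 1

end Pool.Agent.H85.MA
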